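import Mathlib

/-!
# Strong surjectivity after deleting finitely many points

If a linear order `L` is strongly surjective and `x ∈ L`, then `L \ {x}` is strongly surjective.
Hence `L \ F` is strongly surjective for every finite set `F`.

Proof for one point. Let `K` be a nonempty suborder of `L \ {x}` and suppose that `L \ {x}` does
not map onto `K`. Then every weakly monotone surjection `f : L → K` has `{x}` as a fibre, and all
of them have the same value `k` at `x` (two surjections with different values at `x` can be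
combined to one defined on `L \ {x}`). Let `s` be a section of such an `f`, and let `k < x`, say.
The points `p ∈ K`, `p < k`, the two points `k < x`, and the points `s p` for `p ∈ K`, `p > k`, form
a suborder of `L` which is isomorphic to `K` with the point `k` doubled. A surjection from `L` onto
this suborder gives one onto `K` for which the fibre over `k` has at least two points, a
contradiction.
-/

namespace Pool.Agent.Results.MP_6d87e8_lc.DeletePoints

open Set

universe u

/-- There is a surjection from `L` to `K` which is order preserving in the weak sense. -/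
def MapsOnto (L : Type u) (K : Type u) [LinearOrder L] [LinearOrder K] : Prop :=
  ∃ f : L → K, Monotone f ∧ Function.Surjective f

/-- `L` is strongly surjective: it maps onto each of its nonempty suborders. -/
def StronglySurjective (L : Type u) [LinearOrder L] : Prop :=
  ∀ K : Set L, K.Nonempty → MapsOnto L K

theorem MapsOnto.trans {L K M : Type u} [LinearOrder L] [LinearOrder K] [LinearOrder M]
    (h1 : MapsOnto L K) (h2 : MapsOnto K M) : MapsOnto L M := by
  obtain ⟨f, hf, hfs⟩ := h1
  obtain ⟨g, hg, hgs⟩ := h2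
  exact ⟨g ∘ f, hg.comp hf, hgs.comp hfs⟩

theorem mapsOnto_of_iso {L K : Type u} [LinearOrder L] [LinearOrder K] (e : L ≃o K) :
    MapsOnto L K := ⟨e, e.monotone, e.surjective⟩

theorem StronglySurjective.of_iso {L K : Type u} [LinearOrder L] [LinearOrder K]
    (h : StronglySurjective L) (e : L ≃o K) : StronglySurjective K := by
  intro S hS
  have h1 : (e ⁻¹' S).Nonempty := by
    obtain ⟨s, hs⟩ := hS
    exact ⟨e.symm s, by simpa using hs⟩
  refine (mapsOnto_of_iso e.symm).trans ((h _ h1).trans ?_)
  refine ⟨fun y => ⟨e y.1, y.2⟩, fun a b hab => e.monotone hab, fun s => ?_⟩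
  exact ⟨⟨e.symm s.1, by simp⟩, by simp⟩

section One

variable {L : Type u} [LinearOrder L] {K : Type u} [LinearOrder K] {x : L}

/-- If `L \ {x}` does not map onto `K` then `{x}` is a fibre of each surjection. -/
theorem fibre (hno : ¬ MapsOnto {y : L // y ≠ x} K) {f : L → K} (hf : Monotone f)
    (hfs : Function.Surjective f) {y : L} (hy : f y = f x) : y = x := by
  by_contra hne
  refine hno ⟨fun z => f z.1, fun a b hab => hf hab, fun k => ?_⟩
  obtain ⟨z, hz⟩ := hfs k
  by_cases h : z = x
  · subst h
    exact ⟨⟨y, hne⟩, hy.trans hz⟩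
  · exact ⟨⟨z, h⟩, hz⟩

theorem not_lt_value (hno : ¬ MapsOnto {y : L // y ≠ x} K) {f g : L → K} (hf : Monotone f)
    (hfs : Function.Surjective f) (hg : Monotone g) (hgs : Function.Surjective g) :
    ¬ f x < g x := by
  intro hlt
  refine hno ⟨fun z => if z.1 < x then min (g z.1) (f x) else f z.1, ?_, ?_⟩
  · rintro ⟨a, ha⟩ ⟨b, hb⟩ (hab : a ≤ b)
    show (if a < x then min (g a) (f x) else f a) ≤ (if b < x then min (g b) (f x) else f b)
    by_cases hax : a < x
    · by_cases hbx : b < x
      · rw [if_pos hax, if_pos hbx]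
        exact min_le_min_right _ (hg hab)
      · rw [if_pos hax, if_neg hbx]
        exact (min_le_right _ _).trans (hf (not_lt.1 hbx))
    · have hbx : ¬ b < x := fun h => hax (hab.trans_lt h)
      rw [if_neg hax, if_neg hbx]
      exact hf hab
  · intro p
    rcases le_or_gt p (f x) with hp | hp
    · obtain ⟨z, hz⟩ := hgs p
      have hzx : z < x := by
        by_contra h
        have := hg (not_lt.1 h)
        rw [hz] at this
        exact absurd (this.trans hp) (not_le.2 hlt)
      refine ⟨⟨z, hzx.ne⟩, ?_⟩
      show (if z < x then min (g z) (f x) else f z) = p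
      rw [if_pos hzx, hz, min_eq_left hp]
    · obtain ⟨z, hz⟩ := hfs p
      have hzx : x < z := by
        by_contra h
        have := hf (not_lt.1 h)
        rw [hz] at this
        exact absurd this (not_le.2 hp)
      refine ⟨⟨z, hzx.ne'⟩, ?_⟩
      show (if z < x then min (g z) (f x) else f z) = p
      rw [if_neg hzx.not_gt, hz]

/-- Two surjections of `L` onto `K` have the same value at `x`. -/
theorem value_eq (hno : ¬ MapsOnto {y : L // y ≠ x} K) {f g : L → K} (hf : Monotone f)
    (hfs : Function.Surjective f) (hg : Monotone g) (hgs : Function.Surjective g) :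
    f x = g x :=
  le_antisymm (not_lt.1 (not_lt_value hno hg hgs hf hfs))
    (not_lt.1 (not_lt_value hno hf hfs hg hgs))

end One

/-- Deleting one point from a strongly surjective linear order. -/
theorem delete_one {L : Type u} [LinearOrder L] (hL : StronglySurjective L) (x : L) :
    StronglySurjective {y : L // y ≠ x} := by
  intro S hS
  by_contra hno0
  -- `K` is the image of `S` in `L`
  let K : Set L := Subtype.val '' S
  have hxK : x ∉ K := by
    rintro ⟨y, _, hy⟩
    exact y.2 hy
  have hno : ¬ MapsOnto {y : L // y ≠ x} K := by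
    intro h
    refine hno0 (h.trans ⟨fun k => ⟨⟨k.1, fun h => hxK (h ▸ k.2)⟩, ?_⟩, ?_, ?_⟩)
    · obtain ⟨y, hy, hyk⟩ := k.2
      have : (⟨k.1, fun h => hxK (h ▸ k.2)⟩ : {y : L // y ≠ x}) = y := Subtype.ext hyk.symm
      rw [this]
      exact hy
    · intro a b hab
      exact hab
    · rintro ⟨y, hy⟩
      exact ⟨⟨y.1, y, hy, rfl⟩, rfl⟩
  have hKne : K.Nonempty := hS.image _
  obtain ⟨f, hf, hfs⟩ := hL K hKne
  set k : K := f x with hk
  have hkx : (k : L) ≠ x := fun h => hxK (h ▸ k.2)
  choose s hs using hfs
  have hs_lt : ∀ p : K, p < k → s p < x := by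
    intro p hp
    by_contra h
    have := hf (not_lt.1 h)
    rw [hs] at this
    exact absurd this (not_le.2 hp)
  have hs_gt : ∀ p : K, k < p → x < s p := by
    intro p hp
    by_contra h
    have := hf (not_lt.1 h)
    rw [hs] at this
    exact absurd this (not_le.2 hp)
  -- a suborder `K2` with a monotone map onto `K` for which the fibre over `k` is not a singleton
  have key : ∃ K2 : Set L, K2.Nonempty ∧ ∃ c : K2 → K, Monotone c ∧ Function.Surjective c ∧
      ∃ u v : K2, u ≠ v ∧ c u = k ∧ c v = k := by
    rcases lt_or_gt_of_ne hkx with hlt | hgt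
    · -- the case `k < x`
      let K2 : Set L := {y | (y ∈ K ∧ y ≤ k) ∨ y = x ∨ ∃ p : K, k < p ∧ y = s p}
      have hcase : ∀ y : K2, ¬ y.1 ≤ k → x ≤ y.1 := by
        rintro ⟨y, hy⟩ h
        rcases hy with hy | hy | ⟨p, hp, hy⟩
        · exact absurd hy.2 h
        · exact hy.ge
        · exact (hs_gt p hp).le.trans hy.ge
      have hcK : ∀ y : K2, y.1 ≤ k → y.1 ∈ K := by
        rintro ⟨y, hy⟩ h
        rcases hy with hy | hy | ⟨p, hp, hy⟩
        · exact hy.1
        · exact absurd (hy ▸ h) (not_le.2 hlt)
        · exact absurd ((hy ▸ (hs_gt p hp)).trans_le h) (not_lt.2 hlt.le)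
      classical
      refine ⟨K2, ⟨x, Or.inr (Or.inl rfl)⟩,
        fun y => if h : y.1 ≤ k then ⟨y.1, hcK y h⟩ else f y.1, ?_, ?_, ?_⟩
      · intro a b hab
        have hab' : a.1 ≤ b.1 := hab
        by_cases ha : a.1 ≤ k
        · by_cases hb : b.1 ≤ k
          · simp only [ha, hb, dif_pos]
            exact hab
          · simp only [ha, hb, dif_pos, dif_neg, not_false_eq_true]
            have h1 : k ≤ f b.1 := hf (hcase b hb)
            exact le_trans (show (⟨a.1, hcK a ha⟩ : K) ≤ k from ha) h1
        · have hb : ¬ b.1 ≤ k := fun h => ha (hab'.trans h)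
          simp only [ha, hb, dif_neg, not_false_eq_true]
          exact hf hab'
      · intro p
        rcases le_or_gt p k with hp | hp
        · have hp' : p.1 ≤ k.1 := hp
          refine ⟨⟨p.1, Or.inl ⟨p.2, hp⟩⟩, ?_⟩
          simp only [hp', dif_pos]
        · refine ⟨⟨s p, Or.inr (Or.inr ⟨p, hp, rfl⟩)⟩, ?_⟩
          have h2 : ¬ s p ≤ k := not_le.2 (hlt.trans (hs_gt p hp))
          simp only [h2, dif_neg, not_false_eq_true]
          exact hs p
      · refine ⟨⟨k.1, Or.inl ⟨k.2, le_rfl⟩⟩, ⟨x, Or.inr (Or.inl rfl)⟩, ?_, ?_, ?_⟩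
        · intro h
          exact hkx (congrArg Subtype.val h)
        · simp
        · have h2 : ¬ x ≤ k := not_le.2 hlt
          simp only [h2, dif_neg, not_false_eq_true]
          exact hk.symm
    · -- the case `x < k`
      let K2 : Set L := {y | (y ∈ K ∧ k ≤ y) ∨ y = x ∨ ∃ p : K, p < k ∧ y = s p}
      have hcase : ∀ y : K2, ¬ k ≤ y.1 → y.1 ≤ x := by
        rintro ⟨y, hy⟩ h
        rcases hy with hy | hy | ⟨p, hp, hy⟩
        · exact absurd hy.2 h
        · exact hy.le
        · exact hy.le.trans (hs_lt p hp).le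
      have hcK : ∀ y : K2, k ≤ y.1 → y.1 ∈ K := by
        rintro ⟨y, hy⟩ h
        rcases hy with hy | hy | ⟨p, hp, hy⟩
        · exact hy.1
        · exact absurd (hy ▸ h) (not_le.2 hgt)
        · exact absurd (h.trans_lt (hy ▸ (hs_lt p hp))) (not_lt.2 hgt.le)
      classical
      refine ⟨K2, ⟨x, Or.inr (Or.inl rfl)⟩,
        fun y => if h : k ≤ y.1 then ⟨y.1, hcK y h⟩ else f y.1, ?_, ?_, ?_⟩
      · intro a b hab
        have hab' : a.1 ≤ b.1 := hab
        by_cases hb : k ≤ b.1
        · by_cases ha : k ≤ a.1
          · simp only [ha, hb, dif_pos]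
            exact hab
          · simp only [ha, hb, dif_pos, dif_neg, not_false_eq_true]
            have h1 : f a.1 ≤ k := hf (hcase a ha)
            exact le_trans h1 (show k ≤ (⟨b.1, hcK b hb⟩ : K) from hb)
        · have ha : ¬ k ≤ a.1 := fun h => hb (h.trans hab')
          simp only [ha, hb, dif_neg, not_false_eq_true]
          exact hf hab'
      · intro p
        rcases le_or_gt k p with hp | hp
        · have hp' : k.1 ≤ p.1 := hp
          refine ⟨⟨p.1, Or.inl ⟨p.2, hp⟩⟩, ?_⟩
          simp only [hp', dif_pos]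
        · refine ⟨⟨s p, Or.inr (Or.inr ⟨p, hp, rfl⟩)⟩, ?_⟩
          have h2 : ¬ k ≤ s p := not_le.2 ((hs_lt p hp).trans hgt)
          simp only [h2, dif_neg, not_false_eq_true]
          exact hs p
      · refine ⟨⟨k.1, Or.inl ⟨k.2, le_rfl⟩⟩, ⟨x, Or.inr (Or.inl rfl)⟩, ?_, ?_, ?_⟩
        · intro h
          exact hkx (congrArg Subtype.val h)
        · simp
        · have h2 : ¬ k ≤ x := not_le.2 hgt
          simp only [h2, dif_neg, not_false_eq_true]
          exact hk.symm
  obtain ⟨K2, hK2, c, hc, hcs, u, v, huv, hu, hv⟩ := key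
  obtain ⟨g, hg, hgs⟩ := hL K2 hK2
  have hh : Monotone (c ∘ g) := hc.comp hg
  have hhs : Function.Surjective (c ∘ g) := hcs.comp hgs
  have hfs' : Function.Surjective f := fun p => ⟨s p, hs p⟩
  have hval : (c ∘ g) x = k := (value_eq hno hh hhs hf hfs').trans hk.symm
  obtain ⟨u', hu'⟩ := hgs u
  obtain ⟨v', hv'⟩ := hgs v
  have h1 : u' = x := fibre hno hh hhs (by
    rw [hval]
    show c (g u') = k
    rw [hu', hu])
  have h2 : v' = x := fibre hno hh hhs (by
    rw [hval]
    show c (g v') = k
    rw [hv', hv])
  exact huv (by rw [← hu', ← hv', h1, h2])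

/-- **Full answer to Q1 (positive).** If `L` is a strongly surjective linear order then
`L \ F` is strongly surjective for every finite set `F` of points of `L`; for `F = {x}` this is
the order `L \ {x}` of the question. -/
theorem result (L : Type u) [LinearOrder L] (hL : StronglySurjective L) (F : Set L)
    (hF : F.Finite) : StronglySurjective {y : L // y ∉ F} := by
  induction F, hF using Set.Finite.induction_on with
  | empty =>
    exact hL.of_iso (OrderIso.symm ⟨⟨fun y => y.1, fun y => ⟨y, Set.notMem_empty y⟩, fun _ => rfl,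
      fun _ => rfl⟩, Iff.rfl⟩)
  | @insert a F ha _ ih =>
    have h1 := delete_one ih ⟨a, ha⟩
    refine h1.of_iso ⟨⟨fun y => ⟨y.1.1, ?_⟩, fun y => ⟨⟨y.1, ?_⟩, ?_⟩, fun _ => rfl,
      fun _ => rfl⟩, Iff.rfl⟩
    · rintro (h | h)
      · exact y.2 (Subtype.ext h)
      · exact y.1.2 h
    · exact fun h => y.2 (Or.inr h)
    · exact fun h => y.2 (Or.inl (congrArg Subtype.val h))

end Pool.Agent.Results.MP_6d87e8_lc.DeletePoints
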